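import Pool.Agent.Helper38.ZS.Stmts
import Pool.Agent.Helper50.BL.Base
import Pool.Agent.Helper5.BL.LLL

/-!
# Random rounding of a real vector to an integer vector

`zv y true = ⌈y⌉` with probability `fract y`, `zv y false = ⌊y⌋` otherwise.
-/

namespace Pool.Agent.Helper37.ZS

open Finset
open scoped Classical
open Pool.Agent.Helper38.ZS
open Pool.Agent.Helper50.BL (Ex Pr IsW)

noncomputable section

/-- the two integers next to `y` -/
def zv (y : ℝ) (b : Bool) : ℤ := if b then ⌈y⌉ else ⌊y⌋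

/-- their weights -/
def zw (y : ℝ) (b : Bool) : ℝ := if b then Int.fract y else 1 - Int.fract y

theorem zw_nn (y : ℝ) (b : Bool) : 0 ≤ zw y b := by
  unfold zw
  split_ifs
  · exact Int.fract_nonneg y
  · linarith [Int.fract_lt_one y]

theorem zsum (y : ℝ) (f : Bool → ℝ) :
    ∑ b, zw y b * f b = Int.fract y * f true + (1 - Int.fract y) * f false := by
  simp [zw]

theorem zw_sum (y : ℝ) : ∑ b, zw y b = 1 := by
  have := zsum y (fun _ => 1)
  simp only [mul_one] at this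
  rw [this]; ring

theorem isW_zw {ι : Type} (y : ι → ℝ) : IsW (fun k => zw (y k)) :=
  ⟨fun _ _ => zw_nn _ _, fun _ => zw_sum _⟩

/-- either `y` is an integer or the ceiling is the floor plus one -/
theorem zcases (y : ℝ) : (Int.fract y = 0 ∧ (⌈y⌉ : ℝ) = y ∧ (⌊y⌋ : ℝ) = y) ∨
    ((⌈y⌉ : ℝ) = y + (1 - Int.fract y) ∧ (⌊y⌋ : ℝ) = y - Int.fract y) := by
  have h1 : (⌊y⌋ : ℝ) = y - Int.fract y := (Int.self_sub_fract y).symm
  by_cases h : Int.fract y = 0
  · left
    have h2 : (⌊y⌋ : ℝ) = y := by rw [h1, h]; ring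
    refine ⟨h, ?_, h2⟩
    have h3 : ⌈y⌉ = ⌊y⌋ := by
      rw [← h2, Int.ceil_intCast, Int.floor_intCast]
    rw [h3, h2]
  · right
    refine ⟨?_, h1⟩
    have h3 := Int.ceil_eq_add_one_sub_fract h
    rw [h3]; ring

theorem zv_mean (y : ℝ) : ∑ b, zw y b * (zv y b : ℝ) = y := by
  rw [zsum]
  simp only [zv, if_true, if_false, Bool.false_eq_true]
  rcases zcases y with ⟨h0, h1, h2⟩ | ⟨h1, h2⟩
  · rw [h0, h1, h2]; ring
  · rw [h1, h2]; ring

theorem zv_nn {y : ℝ} (hy : 0 ≤ y) (b : Bool) : 0 ≤ zv y b := by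
  unfold zv
  split_ifs
  · exact Int.ceil_nonneg hy
  · exact Int.floor_nonneg.2 hy

theorem zv_np {y : ℝ} (hy : y ≤ 0) (b : Bool) : zv y b ≤ 0 := by
  unfold zv
  split_ifs
  · exact Int.ceil_le.2 (by simpa using hy)
  · have : (⌊y⌋ : ℝ) ≤ y := Int.floor_le y
    have h2 : (⌊y⌋ : ℝ) ≤ ((0 : ℤ) : ℝ) := by push_cast; linarith
    exact_mod_cast h2

theorem zv_abs (y : ℝ) : ∑ b, zw y b * |(zv y b : ℝ)| = |y| := by
  rcases le_total 0 y with hy | hy
  · rw [abs_of_nonneg hy]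
    have : ∀ b, |(zv y b : ℝ)| = (zv y b : ℝ) := fun b =>
      abs_of_nonneg (by exact_mod_cast zv_nn hy b)
    simp only [this]
    exact zv_mean y
  · rw [abs_of_nonpos hy]
    have : ∀ b, |(zv y b : ℝ)| = -(zv y b : ℝ) := fun b =>
      abs_of_nonpos (by exact_mod_cast zv_np hy b)
    simp only [this, mul_neg, sum_neg_distrib]
    rw [zv_mean y]

theorem zv_near (y : ℝ) (b : Bool) : |(zv y b : ℝ) - y| ≤ 1 := by
  have h0 := Int.fract_nonneg y
  have h1 := Int.fract_lt_one y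
  unfold zv
  rw [abs_le]
  split_ifs
  · constructor <;> linarith [Int.le_ceil y, Int.ceil_lt_add_one y]
  · constructor <;> linarith [Int.floor_le y, Int.lt_floor_add_one y]

theorem zv_cen (y : ℝ) : ∑ b, zw y b * ((zv y b : ℝ) - y) = 0 := by
  simp only [mul_sub, sum_sub_distrib]
  rw [zv_mean, ← sum_mul, zw_sum]; ring

theorem zv_var (y : ℝ) : ∑ b, zw y b * ((zv y b : ℝ) - y) ^ 2 ≤ 1 / 4 := by
  rw [zsum]
  simp only [zv, if_true, if_false, Bool.false_eq_true]
  rcases zcases y with ⟨h0, h1, h2⟩ | ⟨h1, h2⟩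
  · rw [h0, h1, h2]; norm_num
  · rw [h1, h2]
    nlinarith [sq_nonneg (Int.fract y - 1 / 2)]

theorem log_le (x : ℝ) (hx : 0 ≤ x) : Real.log (1 + x) ≤ 2 * x ^ (19 / 20 : ℝ) := by
  rcases le_total x 1 with h | h
  · have h1 : Real.log (1 + x) ≤ x := by
      have := Real.log_le_sub_one_of_pos (show 0 < 1 + x by linarith)
      linarith
    have h2 : x ≤ x ^ (19 / 20 : ℝ) := by
      rcases hx.eq_or_lt with h0 | h0
      · rw [← h0]; positivity
      · calc x = x ^ (1 : ℝ) := (Real.rpow_one x).symm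
          _ ≤ x ^ (19 / 20 : ℝ) := Real.rpow_le_rpow_of_exponent_ge h0 h (by norm_num)
    have h3 : 0 ≤ x ^ (19 / 20 : ℝ) := by positivity
    linarith
  · have h0 : 0 < x := by linarith
    have h1 : Real.sqrt (1 + x) ≤ 1 + Real.sqrt x := by
      rw [Real.sqrt_le_left (by positivity)]
      nlinarith [Real.sq_sqrt hx, Real.sqrt_nonneg x]
    have h2 : Real.log (1 + x) = 2 * Real.log (Real.sqrt (1 + x)) := by
      rw [Real.log_sqrt (by linarith)]; ring
    have h3 : Real.log (Real.sqrt (1 + x)) ≤ Real.sqrt x := by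
      have := Real.log_le_sub_one_of_pos (show 0 < Real.sqrt (1 + x) by positivity)
      linarith
    have h4 : Real.sqrt x ≤ x ^ (19 / 20 : ℝ) := by
      rw [Real.sqrt_eq_rpow]
      exact Real.rpow_le_rpow_of_exponent_le h (by norm_num)
    linarith

theorem zv_log (y : ℝ) :
    ∑ b, zw y b * Real.log (1 + |(zv y b : ℝ)|) ≤ 2 * |y| ^ (19 / 20 : ℝ) := by
  refine le_trans ?_ (log_le |y| (abs_nonneg y))
  have hy : 0 < 1 + |y| := by positivity
  have h1 : ∀ b, Real.log (1 + |(zv y b : ℝ)|)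
      ≤ Real.log (1 + |y|) + (|(zv y b : ℝ)| - |y|) / (1 + |y|) := by
    intro b
    have hz : 0 < 1 + |(zv y b : ℝ)| := by positivity
    have h2 := Real.log_le_sub_one_of_pos (div_pos hz hy)
    rw [Real.log_div hz.ne' hy.ne'] at h2
    have h3 : (1 + |(zv y b : ℝ)|) / (1 + |y|) - 1 = (|(zv y b : ℝ)| - |y|) / (1 + |y|) := by
      field_simp
      ring
    linarith
  calc ∑ b, zw y b * Real.log (1 + |(zv y b : ℝ)|)
      ≤ ∑ b, zw y b * (Real.log (1 + |y|) + (|(zv y b : ℝ)| - |y|) / (1 + |y|)) :=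
        sum_le_sum fun b _ => mul_le_mul_of_nonneg_left (h1 b) (zw_nn y b)
    _ = (∑ b, zw y b) * (Real.log (1 + |y|) - |y| / (1 + |y|))
        + (∑ b, zw y b * |(zv y b : ℝ)|) / (1 + |y|) := by
        rw [sum_mul, sum_div, ← sum_add_distrib]
        refine sum_congr rfl fun b _ => ?_
        ring
    _ = Real.log (1 + |y|) := by
        rw [zw_sum, zv_abs]; ring

theorem zv_zero' (b : Bool) : zv 0 b = 0 := by
  cases b <;> simp [zv]

theorem zv_zero (y : ℝ) :
    ∑ b, zw y b * (if zv y b = 0 then 1 else 0) ≤ Real.exp (-|y|) := by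
  rcases lt_or_ge |y| 1 with h | h
  · have h1 : ∀ b, (if zv y b = 0 then (1 : ℝ) else 0) = 1 - |(zv y b : ℝ)| := by
      intro b
      have h2 : |zv y b| ≤ 1 := by
        have h3 : -1 < y ∧ y < 1 := abs_lt.1 h
        rw [abs_le]
        unfold zv
        split_ifs
        · constructor
          · have : (-1 : ℝ) < ⌈y⌉ := lt_of_lt_of_le h3.1 (Int.le_ceil y)
            have : (-1 : ℤ) < ⌈y⌉ := by exact_mod_cast this
            omega
          · exact Int.ceil_le.2 (by push_cast; linarith)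
        · constructor
          · exact Int.le_floor.2 (by push_cast; linarith)
          · have : (⌊y⌋ : ℝ) < 1 := lt_of_le_of_lt (Int.floor_le y) h3.2
            have : ⌊y⌋ < (1 : ℤ) := by exact_mod_cast this
            omega
      split_ifs with h4
      · rw [h4]; simp
      · have h5 : 1 ≤ |zv y b| := Int.one_le_abs h4
        have h6 : |zv y b| = 1 := le_antisymm h2 h5
        have h7 : |(zv y b : ℝ)| = 1 := by
          rw [← Int.cast_abs, h6]; simp
        rw [h7]; ring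
    simp only [h1]
    have h3 : ∑ b, zw y b * (1 - |(zv y b : ℝ)|) = 1 - |y| := by
      simp only [mul_sub, sum_sub_distrib, mul_one]
      rw [zw_sum, zv_abs]
    rw [h3]
    linarith [Real.add_one_le_exp (-|y|)]
  · have h1 : ∀ b, (if zv y b = 0 then (1 : ℝ) else 0) = 0 := by
      intro b
      rw [if_neg]
      intro h2
      unfold zv at h2
      rcases le_abs.1 h with h3 | h3
      · split_ifs at h2
        · have := Int.le_ceil y
          rw [h2] at this; push_cast at this; linarith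
        · have : (1 : ℤ) ≤ ⌊y⌋ := Int.le_floor.2 (by push_cast; linarith)
          omega
      · split_ifs at h2
        · have : ⌈y⌉ ≤ (-1 : ℤ) := Int.ceil_le.2 (by push_cast; linarith)
          omega
        · have := Int.floor_le y
          have h5 := Int.lt_floor_add_one y
          rw [h2] at this; push_cast at this; linarith
    simp only [h1, mul_zero, sum_const_zero]
    positivity

/-! ## products -/

section prod

variable {ι α : Type} [Fintype ι] [Fintype α] {mu : ι → α → ℝ}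

theorem Ex_one_coord (h : IsW mu) (k : ι) (f : α → ℝ) :
    Ex mu (fun w => f (w k)) = ∑ a, mu k a * f a :=
  Pool.Agent.Helper50.BL.Ex_coord h k f

theorem Ex_ind (h : IsW mu) {D D' : Finset ι} (hD : Disjoint D D') {f g : (ι → α) → ℝ}
    (hf : ∀ w w' : ι → α, (∀ v ∈ D, w v = w' v) → f w = f w')
    (hg : ∀ w w' : ι → α, (∀ v ∈ D', w v = w' v) → g w = g w') :
    Ex mu (fun w => f w * g w) = Ex mu f * Ex mu g :=
  Pool.Agent.Helper50.BL.lll_ind h hD hf hg

theorem Ex_two (h : IsW mu) {k l : ι} (hkl : k ≠ l) (f g : α → ℝ) :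
    Ex mu (fun w => f (w k) * g (w l)) = (∑ a, mu k a * f a) * (∑ a, mu l a * g a) := by
  rw [Ex_ind h (D := {k}) (D' := {l}) (by simpa using hkl) (f := fun w => f (w k))
    (g := fun w => g (w l)), Ex_one_coord h, Ex_one_coord h]
  · intro w w' hw
    rw [hw k (by simp)]
  · intro w w' hw
    rw [hw l (by simp)]

theorem Ex_quad (h : IsW mu) (M : ι → ι → ℝ) (φ : ι → α → ℝ)
    (h0 : ∀ k, ∑ a, mu k a * φ k a = 0) :
    Ex mu (fun w => ∑ k, ∑ l, M k l * (φ k (w k) * φ l (w l)))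
      = ∑ k, M k k * ∑ a, mu k a * φ k a ^ 2 := by
  rw [Pool.Agent.Helper50.BL.Ex_sum]
  refine sum_congr rfl fun k _ => ?_
  rw [Pool.Agent.Helper50.BL.Ex_sum, sum_eq_single k]
  · rw [Pool.Agent.Helper50.BL.Ex_mul_left]
    congr 1
    have := Ex_one_coord h k (fun a => φ k a ^ 2)
    rw [← this]
    congr 1
    funext w
    ring
  · intro l _ hl
    rw [Pool.Agent.Helper50.BL.Ex_mul_left, Ex_two h (Ne.symm hl), h0 k]
    ring
  · intro hk
    exact absurd (mem_univ k) hk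

/-- moments of a sum of independent centred bounded terms -/
theorem moments (h : IsW mu) (ψ : ι → α → ℝ) (τ : ℝ) (h0 : ∀ k, ∑ a, mu k a * ψ k a = 0)
    (hb : ∀ k a, ψ k a ^ 2 ≤ τ ^ 2) (s : Finset ι) :
    Ex mu (fun w => ∑ k ∈ s, ψ k (w k)) = 0 ∧
    Ex mu (fun w => (∑ k ∈ s, ψ k (w k)) ^ 2) = ∑ k ∈ s, ∑ a, mu k a * ψ k a ^ 2 ∧
    Ex mu (fun w => (∑ k ∈ s, ψ k (w k)) ^ 4)
      ≤ 3 * (∑ k ∈ s, ∑ a, mu k a * ψ k a ^ 2) ^ 2
        + τ ^ 2 * ∑ k ∈ s, ∑ a, mu k a * ψ k a ^ 2 := by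
  induction s using Finset.induction_on with
  | empty =>
    simp only [sum_empty]
    have e1 := Pool.Agent.Helper50.BL.Ex_const h 0
    refine ⟨e1, ?_, ?_⟩
    · simpa using e1
    · simpa using e1.le
  | insert b s hbs ih =>
    obtain ⟨i1, i2, i4⟩ := ih
    set Y : (ι → α) → ℝ := fun w => ∑ k ∈ s, ψ k (w k) with hY
    have hYd : ∀ w w' : ι → α, (∀ v ∈ s, w v = w' v) → Y w = Y w' := by
      intro w w' hw
      simp only [hY]
      exact sum_congr rfl fun k hk => by rw [hw k hk]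
    have hD : Disjoint s {b} := by simpa using hbs
    have ind : ∀ (m n : ℕ), Ex mu (fun w => Y w ^ m * ψ b (w b) ^ n)
        = Ex mu (fun w => Y w ^ m) * ∑ a, mu b a * ψ b a ^ n := by
      intro m n
      rw [Ex_ind h hD (f := fun w => Y w ^ m) (g := fun w => ψ b (w b) ^ n),
        Ex_one_coord h b (fun a => ψ b a ^ n)]
      · intro w w' hw
        rw [hYd w w' hw]
      · intro w w' hw
        rw [hw b (by simp)]
    have m0 : ∑ a, mu b a * ψ b a ^ 1 = 0 := by simpa using h0 b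
    set q : ℝ := ∑ a, mu b a * ψ b a ^ 2 with hq
    have q0 : 0 ≤ q := sum_nonneg fun a _ => mul_nonneg (h.1 b a) (sq_nonneg _)
    have q4 : ∑ a, mu b a * ψ b a ^ 4 ≤ τ ^ 2 * q := by
      rw [hq, mul_sum]
      refine sum_le_sum fun a _ => ?_
      have : ψ b a ^ 4 ≤ τ ^ 2 * ψ b a ^ 2 := by nlinarith [hb b a, sq_nonneg (ψ b a)]
      nlinarith [h.1 b a]
    set Q : ℝ := ∑ k ∈ s, ∑ a, mu k a * ψ k a ^ 2 with hQ
    have Q0 : 0 ≤ Q := sum_nonneg fun k _ => sum_nonneg fun a _ =>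
      mul_nonneg (h.1 k a) (sq_nonneg _)
    have hsum : ∀ w : ι → α, ∑ k ∈ insert b s, ψ k (w k) = Y w + ψ b (w b) := by
      intro w
      rw [sum_insert hbs, add_comm]
    have hqs : ∑ k ∈ insert b s, ∑ a, mu k a * ψ k a ^ 2 = Q + q := by
      rw [sum_insert hbs, add_comm]
    simp only [hsum, hqs]
    have c1 : Ex mu (fun w => Y w ^ 1) = 0 := by simpa using i1
    have c0 : Ex mu (fun w => Y w ^ 0) = 1 := by
      simpa using Pool.Agent.Helper50.BL.Ex_const h 1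
    refine ⟨?_, ?_, ?_⟩
    · rw [Pool.Agent.Helper50.BL.Ex_add]
      have := ind 0 1
      simp only [pow_zero, one_mul, pow_one] at this
      rw [this]
      have e := Pool.Agent.Helper50.BL.Ex_const h 1
      rw [e, h0 b]
      have i1' : Ex mu Y = 0 := i1
      rw [i1']; ring
    · have e : (fun w : ι → α => (Y w + ψ b (w b)) ^ 2)
          = fun w => Y w ^ 2 + (2 * (Y w ^ 1 * ψ b (w b) ^ 1) + Y w ^ 0 * ψ b (w b) ^ 2) := by
        funext w; ring
      rw [e, Pool.Agent.Helper50.BL.Ex_add, Pool.Agent.Helper50.BL.Ex_add,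
        Pool.Agent.Helper50.BL.Ex_mul_left, ind 1 1, ind 0 2, c1, c0, m0]
      have i2' : Ex mu (fun w => Y w ^ 2) = Q := i2
      rw [i2']; ring
    · have e : (fun w : ι → α => (Y w + ψ b (w b)) ^ 4)
          = fun w => Y w ^ 4 + (4 * (Y w ^ 3 * ψ b (w b) ^ 1) + (6 * (Y w ^ 2 * ψ b (w b) ^ 2)
            + (4 * (Y w ^ 1 * ψ b (w b) ^ 3) + Y w ^ 0 * ψ b (w b) ^ 4))) := by
        funext w; ring
      rw [e, Pool.Agent.Helper50.BL.Ex_add, Pool.Agent.Helper50.BL.Ex_add,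
        Pool.Agent.Helper50.BL.Ex_add, Pool.Agent.Helper50.BL.Ex_add,
        Pool.Agent.Helper50.BL.Ex_mul_left, Pool.Agent.Helper50.BL.Ex_mul_left,
        Pool.Agent.Helper50.BL.Ex_mul_left, ind 3 1, ind 2 2, ind 1 3, ind 0 4, c1, c0, m0]
      have i2' : Ex mu (fun w => Y w ^ 2) = Q := i2
      have i4' : Ex mu (fun w => Y w ^ 4) ≤ 3 * Q ^ 2 + τ ^ 2 * Q := i4
      rw [i2']
      nlinarith [mul_nonneg Q0 q0, sq_nonneg q]

theorem Pr_eq (A : (ι → α) → Prop) : Pr mu A = Ex mu (fun w => if A w then 1 else 0) := rfl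

/-- Markov's inequality -/
theorem markov (h : IsW mu) (F : (ι → α) → ℝ) (hF : ∀ w, 0 ≤ F w) (c : ℝ) (hc : 0 < c) :
    Pr mu (fun w => c ≤ F w) ≤ Ex mu F / c := by
  rw [Pr_eq, le_div_iff₀ hc, mul_comm, ← Pool.Agent.Helper50.BL.Ex_mul_left]
  refine Pool.Agent.Helper50.BL.Ex_mono h fun w => ?_
  split_ifs with hw
  · linarith
  · linarith [hF w]

theorem Pr_not (h : IsW mu) (A : (ι → α) → Prop) : Pr mu (fun w => ¬ A w) = 1 - Pr mu A := by
  have e : Pr mu (fun w => ¬ A w) = Ex mu (fun _ => 1) - Pr mu A := by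
    rw [Pr_eq, Pr_eq, ← Pool.Agent.Helper50.BL.Ex_sub]
    congr 1
    funext w
    by_cases hA : A w <;> simp [hA]
  rw [e, Pool.Agent.Helper50.BL.Ex_one h]

/-- a sum of independent centred terms is not very negative with probability at least `1/14` -/
theorem anti (h : IsW mu) (ψ : ι → α → ℝ) (τ d : ℝ) (h0 : ∀ k, ∑ a, mu k a * ψ k a = 0)
    (hτ : 0 < τ) (hb : ∀ k a, ψ k a ^ 2 ≤ τ ^ 2) (s : Finset ι) (hd : 2 * τ ≤ d) :
    1 / 14 ≤ Pr mu (fun w => -d ≤ ∑ k ∈ s, ψ k (w k)) := by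
  obtain ⟨e1, e2, e4⟩ := moments h ψ τ h0 hb s
  set Q : ℝ := ∑ k ∈ s, ∑ a, mu k a * ψ k a ^ 2 with hQ
  have Q0 : 0 ≤ Q := sum_nonneg fun k _ => sum_nonneg fun a _ =>
    mul_nonneg (h.1 k a) (sq_nonneg _)
  rcases lt_or_ge Q (τ ^ 2) with hlt | hge
  · have hc : 0 < d ^ 2 := by nlinarith
    have m := markov h (fun w => (∑ k ∈ s, ψ k (w k)) ^ 2) (fun w => sq_nonneg _) (d ^ 2) hc
    rw [e2] at m
    have m2 : Q / d ^ 2 ≤ 1 / 4 := by
      rw [div_le_iff₀ hc]
      nlinarith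
    have m3 : 1 - Pr mu (fun w => d ^ 2 ≤ (∑ k ∈ s, ψ k (w k)) ^ 2)
        ≤ Pr mu (fun w => -d ≤ ∑ k ∈ s, ψ k (w k)) := by
      rw [← Pr_not h]
      refine Pool.Agent.Helper50.BL.Pr_mono h fun w hw => ?_
      by_contra hcon
      push Not at hcon hw
      nlinarith
    linarith
  · have hQ1 : 0 < Q := lt_of_lt_of_le (by positivity) hge
    set σ : ℝ := Real.sqrt Q with hσ
    have hσ0 : 0 < σ := Real.sqrt_pos.2 hQ1
    have hσ2 : σ ^ 2 = Q := Real.sq_sqrt Q0
    have key : ∀ y : ℝ, 4.31 * y * σ ^ 3 + 5 * y ^ 2 * σ ^ 2 - y ^ 4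
        ≤ 14 * σ ^ 4 * (if -d ≤ y then 1 else 0) := by
      intro y
      have hz : ∃ z : ℝ, y = z * σ := ⟨y / σ, by field_simp⟩
      obtain ⟨z, rfl⟩ := hz
      have hσ4 : 0 < σ ^ 4 := by positivity
      have e : 4.31 * (z * σ) * σ ^ 3 + 5 * (z * σ) ^ 2 * σ ^ 2 - (z * σ) ^ 4
          = (4.31 * z + 5 * z ^ 2 - z ^ 4) * σ ^ 4 := by ring
      rw [e]
      split_ifs with hy
      · have : 4.31 * z + 5 * z ^ 2 - z ^ 4 ≤ 14 := by
          nlinarith [sq_nonneg (z ^ 2 - 3.09), sq_nonneg (z - 1.76)]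
        nlinarith
      · push Not at hy
        have hz0 : z < 0 := by
          by_contra hcon
          push Not at hcon
          have : 0 ≤ z * σ := by positivity
          linarith
        have : 4.31 * z + 5 * z ^ 2 - z ^ 4 ≤ 0 := by
          have h3 : 0 ≤ (-z) ^ 3 - 5 * (-z) + 4.31 := by
            nlinarith [mul_nonneg (show (0 : ℝ) ≤ -z by linarith) (sq_nonneg (-z - 1.291)),
              sq_nonneg (-z - 1.291)]
          nlinarith
        nlinarith
    have hE : Ex mu (fun w => 4.31 * (∑ k ∈ s, ψ k (w k)) * σ ^ 3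
        + 5 * (∑ k ∈ s, ψ k (w k)) ^ 2 * σ ^ 2 - (∑ k ∈ s, ψ k (w k)) ^ 4)
        ≤ 14 * σ ^ 4 * Pr mu (fun w => -d ≤ ∑ k ∈ s, ψ k (w k)) := by
      rw [Pr_eq, ← Pool.Agent.Helper50.BL.Ex_mul_left]
      exact Pool.Agent.Helper50.BL.Ex_mono h fun w => key _
    have hE2 : Ex mu (fun w => 4.31 * (∑ k ∈ s, ψ k (w k)) * σ ^ 3
        + 5 * (∑ k ∈ s, ψ k (w k)) ^ 2 * σ ^ 2 - (∑ k ∈ s, ψ k (w k)) ^ 4)
        = 5 * Q ^ 2 - Ex mu (fun w => (∑ k ∈ s, ψ k (w k)) ^ 4) := by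
      have e : (fun w : ι → α => 4.31 * (∑ k ∈ s, ψ k (w k)) * σ ^ 3
        + 5 * (∑ k ∈ s, ψ k (w k)) ^ 2 * σ ^ 2 - (∑ k ∈ s, ψ k (w k)) ^ 4)
          = fun w => ((4.31 * σ ^ 3) * (∑ k ∈ s, ψ k (w k))
            + (5 * σ ^ 2) * (∑ k ∈ s, ψ k (w k)) ^ 2) - (∑ k ∈ s, ψ k (w k)) ^ 4 := by
        funext w; ring
      rw [e, Pool.Agent.Helper50.BL.Ex_sub, Pool.Agent.Helper50.BL.Ex_add,
        Pool.Agent.Helper50.BL.Ex_mul_left, Pool.Agent.Helper50.BL.Ex_mul_left, e1, e2, hσ2]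
      ring
    rw [hE2] at hE
    have hσ4 : σ ^ 4 = Q ^ 2 := by
      have : σ ^ 4 = (σ ^ 2) ^ 2 := by ring
      rw [this, hσ2]
    rw [hσ4] at hE
    have h5 : Q ^ 2 ≤ 14 * Q ^ 2 * Pr mu (fun w => -d ≤ ∑ k ∈ s, ψ k (w k)) := by
      nlinarith
    have hQ2 : 0 < Q ^ 2 := by positivity
    have h6 : 1 ≤ 14 * Pr mu (fun w => -d ≤ ∑ k ∈ s, ψ k (w k)) := by
      by_contra hcon
      push Not at hcon
      nlinarith
    linarith

end prod

/-! ## the rounded vector -/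

section rv

variable {ι : Type} [Fintype ι]

theorem sum_ap_sq {P : ι → ι → ℝ} (hP : IsPr P) (x : ι → ℝ) :
    ∑ v, ap P x v ^ 2 = ∑ k, ∑ l, P k l * (x k * x l) := by
  have h1 : ∀ v, ap P x v ^ 2 = ∑ k, ∑ l, (P k v * P v l) * (x k * x l) := by
    intro v
    rw [sq, ap, sum_mul_sum]
    refine sum_congr rfl fun k _ => sum_congr rfl fun l _ => ?_
    rw [hP.symm v k]; ring
  simp only [h1]
  rw [sum_comm]
  refine sum_congr rfl fun k _ => ?_
  rw [sum_comm]
  refine sum_congr rfl fun l _ => ?_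
  rw [← sum_mul, hP.idem]

theorem diag_nn {P : ι → ι → ℝ} (hP : IsPr P) (k : ι) : 0 ≤ P k k := by
  rw [← hP.idem k k]
  refine sum_nonneg fun j _ => ?_
  rw [hP.symm j k]
  exact mul_self_nonneg _

theorem diag_le {P : ι → ι → ℝ} (hP : IsPr P) (k : ι) : P k k ≤ 1 := by
  have h1 : P k k * P k k ≤ ∑ j, P k j * P j k := by
    refine single_le_sum (f := fun j => P k j * P j k) (fun j _ => ?_) (mem_univ k)
    rw [hP.symm j k]
    exact mul_self_nonneg _
  rw [hP.idem k k] at h1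
  nlinarith [diag_nn hP k]

/-- the variance of the projection of the rounding error -/
theorem round_var {P : ι → ι → ℝ} (hP : IsPr P) (Z : Finset ι) (y : ι → ℝ)
    (hy : ∀ k, k ∉ Z → y k = 0) (c : ℝ) :
    Ex (fun k => zw (y k))
      (fun w => ∑ v, ap P (fun k => c * ((zv (y k) (w k) : ℝ) - y k)) v ^ 2)
      ≤ c ^ 2 / 4 * ∑ k ∈ Z, P k k := by
  have hW := isW_zw y
  have e : (fun w : ι → Bool => ∑ v, ap P (fun k => c * ((zv (y k) (w k) : ℝ) - y k)) v ^ 2)
      = fun w => ∑ k, ∑ l, P k l * ((fun k b => c * ((zv (y k) b : ℝ) - y k)) k (w k)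
        * (fun k b => c * ((zv (y k) b : ℝ) - y k)) l (w l)) := by
    funext w
    rw [sum_ap_sq hP]
  rw [e, Ex_quad hW P (fun k b => c * ((zv (y k) b : ℝ) - y k))]
  · rw [mul_sum, ← sum_subset (subset_univ Z)]
    · refine sum_le_sum fun k _ => ?_
      have h1 : ∑ a, zw (y k) a * (c * ((zv (y k) a : ℝ) - y k)) ^ 2
          = c ^ 2 * ∑ a, zw (y k) a * ((zv (y k) a : ℝ) - y k) ^ 2 := by
        rw [mul_sum]
        refine sum_congr rfl fun a _ => ?_
        ring
      rw [h1]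
      have h2 := zv_var (y k)
      have h3 := diag_nn hP k
      have h4 : c ^ 2 * ∑ a, zw (y k) a * ((zv (y k) a : ℝ) - y k) ^ 2 ≤ c ^ 2 * (1 / 4) :=
        mul_le_mul_of_nonneg_left h2 (sq_nonneg c)
      calc P k k * (c ^ 2 * ∑ a, zw (y k) a * ((zv (y k) a : ℝ) - y k) ^ 2)
          ≤ P k k * (c ^ 2 * (1 / 4)) := mul_le_mul_of_nonneg_left h4 h3
        _ = c ^ 2 / 4 * P k k := by ring
    · intro k _ hk
      rw [hy k hk]
      simp [zv_zero']
  · intro k
    have h1 : ∑ a, zw (y k) a * (c * ((zv (y k) a : ℝ) - y k))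
        = c * ∑ a, zw (y k) a * ((zv (y k) a : ℝ) - y k) := by
      rw [mul_sum]
      refine sum_congr rfl fun a _ => ?_
      ring
    rw [h1, zv_cen]; ring

/-- the expected cost of the rounded vector -/
theorem round_lc (Z : Finset ι) (y : ι → ℝ) (hy : ∀ k, k ∉ Z → y k = 0) :
    Ex (fun k => zw (y k)) (fun w => lc (fun k => zv (y k) (w k)))
      ≤ 2 * ∑ k ∈ Z, |y k| ^ (19 / 20 : ℝ) := by
  have hW := isW_zw y
  simp only [lc]
  rw [Pool.Agent.Helper50.BL.Ex_sum, mul_sum, ← sum_subset (subset_univ Z)]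
  · refine sum_le_sum fun k _ => ?_
    rw [Ex_one_coord hW k (fun b => Real.log (1 + |(zv (y k) b : ℝ)|))]
    exact zv_log (y k)
  · intro k _ hk
    rw [Ex_one_coord hW k (fun b => Real.log (1 + |(zv (y k) b : ℝ)|)), hy k hk]
    simp [zv_zero']

/-- the probability that nothing is sampled on `B` -/
theorem round_zero (B : Finset ι) (y : ι → ℝ) :
    Pr (fun k => zw (y k)) (fun w => ∀ k ∈ B, zv (y k) (w k) = 0)
      ≤ Real.exp (-∑ k ∈ B, |y k|) := by
  have e : Pr (fun k => zw (y k)) (fun w => ∀ k ∈ B, zv (y k) (w k) = 0)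
      = Ex (fun k => zw (y k)) (fun w => ∏ k, (fun k b => if k ∈ B then
        (if zv (y k) b = 0 then (1 : ℝ) else 0) else 1) k (w k)) := by
    rw [Pr_eq]
    congr 1
    funext w
    by_cases h : ∀ k ∈ B, zv (y k) (w k) = 0
    · rw [if_pos h]
      symm
      refine prod_eq_one fun k _ => ?_
      simp only
      split_ifs with h1 h2
      · rfl
      · exact absurd (h k h1) h2
      · rfl
    · rw [if_neg h]
      push Not at h
      obtain ⟨k, hk, hz⟩ := h
      symm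
      refine prod_eq_zero (mem_univ k) ?_
      simp [hk, hz]
  have e2 := Pool.Agent.Helper50.BL.Ex_prod (mu := fun k => zw (y k)) (fun k b => if k ∈ B then
        (if zv (y k) b = 0 then (1 : ℝ) else 0) else 1)
  rw [e, e2, ← prod_subset (subset_univ B)]
  · rw [← sum_neg_distrib, Real.exp_sum]
    refine prod_le_prod (fun k _ => sum_nonneg fun b _ => mul_nonneg (zw_nn _ _) ?_)
      fun k hk => ?_
    · split_ifs <;> norm_num
    · simp only [hk, if_true]
      exact zv_zero (y k)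
  · intro k _ hk
    simp only [hk, if_false, mul_one]
    exact zw_sum (y k)

end rv

end

end Pool.Agent.Helper37.ZS
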