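import Pool.Agent.Helper37.ZS.Round

/-!
# Zonotope signing, module 7: one sample detects one in 64 of the sets
-/

namespace Pool.Agent.Helper37.ZS

open Finset
open scoped Classical
open Pool.Agent.Helper38.ZS
open Pool.Agent.Helper50.BL (Ex Pr IsW)

noncomputable section

variable {ι : Type} [Fintype ι]

/-- the expected sample -/
def yv (K : ℝ) (Z : Finset ι) (g : ι → ℝ) (k : ι) : ℝ := Real.exp (-(K / 8)) * rs Z g k

/-- the sample -/
def zs (K : ℝ) (Z : Finset ι) (g : ι → ℝ) (w : ι → Bool) (k : ι) : ℤ := zv (yv K Z g k) (w k)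

omit [Fintype ι] in
theorem yv_off {K : ℝ} {Z : Finset ι} {g : ι → ℝ} {k : ι} (hk : k ∉ Z) : yv K Z g k = 0 := by
  simp [yv, rs, hk]

omit [Fintype ι] in
theorem zs_off {K : ℝ} {Z : Finset ι} {g : ι → ℝ} (w : ι → Bool) {k : ι} (hk : k ∉ Z) :
    zs K Z g w k = 0 := by
  rw [zs, yv_off hk, zv_zero']

omit [Fintype ι] in
theorem yv_on {K : ℝ} {Z : Finset ι} {g : ι → ℝ} {k : ι} (hk : k ∈ Z) :
    yv K Z g k = Real.exp (-(K / 8)) * g k := by
  simp [yv, rs, hk]

omit [Fintype ι] in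
theorem exp_yv (K : ℝ) (Z : Finset ι) (g : ι → ℝ) (k : ι) :
    Real.exp (K / 8) * yv K Z g k = rs Z g k := by
  rw [yv, ← mul_assoc, ← Real.exp_add]
  simp

theorem ap_rs (P : ι → ι → ℝ) (B : Finset ι) (g : ι → ℝ) (l : ι) :
    ap P (rs B g) l = ∑ k ∈ B, P l k * g k := by
  simp [ap, rs, sum_ite_mem]

theorem II_eq {P : ι → ι → ℝ} (hP : IsPr P) (g : ι → ℝ) (B Y : Finset ι) :
    II P g B Y = ∑ l ∈ Y, g l * ap P (rs B g) l := by
  rw [II, sum_comm]
  refine sum_congr rfl fun l _ => ?_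
  rw [ap_rs, mul_sum]
  refine sum_congr rfl fun k _ => ?_
  rw [hP.symm l k]; ring

theorem ap_add (P : ι → ι → ℝ) (x y : ι → ℝ) (v : ι) :
    ap P (fun k => x k + y k) v = ap P x v + ap P y v := by
  simp [ap, mul_add, sum_add_distrib]

/-- the sum over the set of the reconstructed field -/
theorem pair {P : ι → ι → ℝ} (hP : IsPr P) (B : Finset ι) (g x : ι → ℝ) :
    ∑ k ∈ B, g k * ap P x k = ∑ l, x l * ap P (rs B g) l := by
  simp only [ap_rs, mul_sum]
  rw [sum_comm]
  simp only [ap, mul_sum]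
  rw [sum_comm]
  rw [sum_comm (s := B)]
  refine sum_congr rfl fun l _ => sum_congr rfl fun k _ => ?_
  rw [hP.symm l k]; ring

/-- a heavy set is detected -/
theorem detect_heavy (P : ι → ι → ℝ) (K : ℝ) (Z B : Finset ι) (g : ι → ℝ) (hB : B ⊆ Z)
    (h : Real.exp (K / 8) ≤ l1 g B) :
    Pr (fun k => zw (yv K Z g k)) (fun w => ¬ Det P K (zs K Z g w) B) ≤ 31 / 32 := by
  have hW := isW_zw (yv K Z g)
  have h1 : Pr (fun k => zw (yv K Z g k)) (fun w => ¬ Det P K (zs K Z g w) B)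
      ≤ Pr (fun k => zw (yv K Z g k)) (fun w => ∀ k ∈ B, zv (yv K Z g k) (w k) = 0) := by
    refine Pool.Agent.Helper50.BL.Pr_mono hW fun w hw => ?_
    intro k hk
    by_contra hne
    exact hw ⟨k, hk, Or.inl hne⟩
  have h2 := round_zero B (yv K Z g)
  have h3 : ∑ k ∈ B, |yv K Z g k| = Real.exp (-(K / 8)) * l1 g B := by
    rw [l1, mul_sum]
    refine sum_congr rfl fun k hk => ?_
    rw [yv_on (hB hk), abs_mul, abs_of_pos (Real.exp_pos _)]
  have h4 : 1 ≤ Real.exp (-(K / 8)) * l1 g B := by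
    calc (1 : ℝ) = Real.exp (-(K / 8)) * Real.exp (K / 8) := by
          rw [← Real.exp_add]; simp
      _ ≤ _ := mul_le_mul_of_nonneg_left h (Real.exp_pos _).le
  have h5 : Real.exp (-∑ k ∈ B, |yv K Z g k|) ≤ 31 / 32 := by
    rw [h3]
    have h6 : Real.exp (-(Real.exp (-(K / 8)) * l1 g B)) ≤ Real.exp (-1) :=
      Real.exp_le_exp.2 (by linarith)
    have h7 : Real.exp (-1) ≤ 31 / 32 := by
      have h8 : Real.exp (-1) * Real.exp 1 = 1 := by
        rw [← Real.exp_add]; simp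
      have h9 := Real.add_one_le_exp (1 : ℝ)
      nlinarith [Real.exp_pos (-1 : ℝ)]
    linarith
  linarith

/-- a slow set is detected -/
theorem detect_slow {P : ι → ι → ℝ} (hP : IsPr P) (K : ℝ) (Z B : Finset ι) (g : ι → ℝ)
    (q : ℝ) (hq : 0 < q) (hq1 : 16 * Real.exp (-(3 * K / 4)) ≤ q)
    (hq2 : Real.exp (-(3 * K / 8)) ≤ q / 2)
    (hl : l1 g B < Real.exp (K / 8)) (hI : q ≤ II P g B (Z \ B))
    (hn : near P K Z g B ≤ II P g B (Z \ B) / 8) :
    Pr (fun k => zw (yv K Z g k)) (fun w => ¬ Det P K (zs K Z g w) B) ≤ 31 / 32 := by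
  have hW := isW_zw (yv K Z g)
  set I : ℝ := II P g B (Z \ B) with hIdef
  set wl : ι → ℝ := fun l => ap P (rs B g) l with hwl
  have hIpos : 0 < I := lt_of_lt_of_le hq hI
  set D1 : Finset ι := bd P K Z B with hD1
  set D2 : Finset ι := (Z \ B) \ D1 with hD2
  have hD1Z : D1 ⊆ Z \ B := filter_subset _ _
  have hIe : I = ∑ l ∈ D1, g l * wl l + ∑ l ∈ D2, g l * wl l := by
    rw [hIdef, II_eq hP, ← sum_sdiff hD1Z, add_comm]
  have hl0 : 0 ≤ l1 g B := sum_nonneg fun k _ => abs_nonneg _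
  have hfar : ∀ l ∈ D2, |wl l| ≤ Real.exp (-(7 * K / 8)) := by
    intro l hl'
    have hl1 : l ∈ Z \ B := (mem_sdiff.1 hl').1
    have hl2 : l ∉ D1 := (mem_sdiff.1 hl').2
    have hna : ∀ k ∈ B, |P l k| ≤ Real.exp (-K) := by
      intro k hk
      by_contra hcon
      push Not at hcon
      exact hl2 (mem_filter.2 ⟨hl1, k, hk, hcon.le⟩)
    have h1 : |wl l| ≤ ∑ k ∈ B, |P l k * g k| := by
      rw [hwl]
      simp only [ap_rs]
      exact abs_sum_le_sum_abs _ _
    have h2 : ∑ k ∈ B, |P l k * g k| ≤ Real.exp (-K) * l1 g B := by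
      rw [l1, mul_sum]
      refine sum_le_sum fun k hk => ?_
      rw [abs_mul]
      exact mul_le_mul_of_nonneg_right (hna k hk) (abs_nonneg _)
    have h3 : Real.exp (-K) * l1 g B ≤ Real.exp (-K) * Real.exp (K / 8) :=
      mul_le_mul_of_nonneg_left hl.le (Real.exp_pos _).le
    have h4 : Real.exp (-K) * Real.exp (K / 8) = Real.exp (-(7 * K / 8)) := by
      rw [← Real.exp_add]; congr 1; ring
    linarith
  -- the near part
  set F1 : (ι → Bool) → ℝ := fun w =>
    ∑ l ∈ D1, (Real.exp (K / 8) * |(zs K Z g w l : ℝ)|) * |wl l| with hF1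
  have hF1n : ∀ w, 0 ≤ F1 w := fun w => sum_nonneg fun l _ => by positivity
  have hF1e : Ex (fun k => zw (yv K Z g k)) F1 = near P K Z g B := by
    have e : F1 = fun w => ∑ l ∈ D1,
        (Real.exp (K / 8) * |wl l|) * |(zv (yv K Z g l) (w l) : ℝ)| := by
      funext w
      simp only [hF1, zs]
      refine sum_congr rfl fun l _ => ?_
      ring
    rw [e, Pool.Agent.Helper50.BL.Ex_sum, near]
    refine sum_congr rfl fun l hl' => ?_
    rw [Pool.Agent.Helper50.BL.Ex_mul_left,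
      Ex_one_coord hW l (fun b => |(zv (yv K Z g l) b : ℝ)|), zv_abs]
    have hlZ : l ∈ Z := (mem_sdiff.1 (hD1Z hl')).1
    have h1 : |yv K Z g l| = Real.exp (-(K / 8)) * |g l| := by
      rw [yv_on hlZ, abs_mul, abs_of_pos (Real.exp_pos _)]
    rw [h1]
    have h2 : Real.exp (K / 8) * Real.exp (-(K / 8)) = 1 := by
      rw [← Real.exp_add]; simp
    calc Real.exp (K / 8) * |wl l| * (Real.exp (-(K / 8)) * |g l|)
        = (Real.exp (K / 8) * Real.exp (-(K / 8))) * (|g l| * |wl l|) := by ring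
      _ = |g l| * |ap P (rs B g) l| := by rw [h2, one_mul]
  have hA1 : 1 / 2 ≤ Pr (fun k => zw (yv K Z g k)) (fun w => F1 w < I / 4) := by
    have m := markov hW F1 hF1n (I / 4) (by positivity)
    rw [hF1e] at m
    have m2 : near P K Z g B / (I / 4) ≤ 1 / 2 := by
      rw [div_le_iff₀ (by positivity)]
      linarith
    have m3 : Pr (fun k => zw (yv K Z g k)) (fun w => F1 w < I / 4)
        = 1 - Pr (fun k => zw (yv K Z g k)) (fun w => I / 4 ≤ F1 w) := by
      rw [← Pr_not hW]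
      congr 1
      funext w
      exact propext not_le.symm
    linarith
  -- the far part
  set ψ : ι → Bool → ℝ := fun l b => if l ∈ D2 then
    (Real.exp (K / 8) * wl l) * ((zv (yv K Z g l) b : ℝ) - yv K Z g l) else 0 with hψ
  have hψ0 : ∀ k, ∑ a, zw (yv K Z g k) a * ψ k a = 0 := by
    intro k
    simp only [hψ]
    split_ifs with hk
    · have h1 : ∑ a, zw (yv K Z g k) a * ((Real.exp (K / 8) * wl k)
          * ((zv (yv K Z g k) a : ℝ) - yv K Z g k))
          = (Real.exp (K / 8) * wl k) * ∑ a, zw (yv K Z g k) a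
            * ((zv (yv K Z g k) a : ℝ) - yv K Z g k) := by
        rw [mul_sum]
        refine sum_congr rfl fun a _ => ?_
        ring
      rw [h1, zv_cen]; ring
    · simp
  have hψb : ∀ k a, ψ k a ^ 2 ≤ Real.exp (-(3 * K / 4)) ^ 2 := by
    intro k a
    simp only [hψ]
    split_ifs with hk
    · have h1 : |(Real.exp (K / 8) * wl k) * ((zv (yv K Z g k) a : ℝ) - yv K Z g k)|
          ≤ Real.exp (-(3 * K / 4)) := by
        rw [abs_mul, abs_mul, abs_of_pos (Real.exp_pos _)]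
        have h2 := zv_near (yv K Z g k) a
        have h3 := hfar k hk
        have h4 : Real.exp (K / 8) * Real.exp (-(7 * K / 8)) = Real.exp (-(3 * K / 4)) := by
          rw [← Real.exp_add]; congr 1; ring
        calc Real.exp (K / 8) * |wl k| * |(zv (yv K Z g k) a : ℝ) - yv K Z g k|
            ≤ Real.exp (K / 8) * Real.exp (-(7 * K / 8)) * 1 := by
              refine mul_le_mul (mul_le_mul_of_nonneg_left h3 (Real.exp_pos _).le) h2
                (abs_nonneg _) (by positivity)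
          _ = _ := by rw [mul_one, h4]
      exact sq_le_sq' (by linarith [(abs_le.1 h1).1]) (abs_le.1 h1).2
    · simp only [ne_eq, OfNat.ofNat_ne_zero, not_false_eq_true, zero_pow]
      positivity
  have hA2 := anti hW ψ (Real.exp (-(3 * K / 4))) (I / 8) hψ0 (Real.exp_pos _) hψb D2
    (by linarith)
  -- independence
  have hdis : Disjoint D1 D2 := disjoint_sdiff
  have hind := Pool.Agent.Helper50.BL.lll_ind_pr hW hdis (A := fun w => F1 w < I / 4)
    (B := fun w => -(I / 8) ≤ ∑ k ∈ D2, ψ k (w k)) (by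
      intro w w' hw
      have : F1 w = F1 w' := by
        simp only [hF1, zs]
        refine sum_congr rfl fun l hl' => ?_
        rw [hw l hl']
      simp only [this]) (by
      intro w w' hw
      have : ∑ k ∈ D2, ψ k (w k) = ∑ k ∈ D2, ψ k (w' k) :=
        sum_congr rfl fun k hk => by rw [hw k hk]
      simp only [this])
  have hboth : 1 / 32 ≤ Pr (fun k => zw (yv K Z g k))
      (fun w => F1 w < I / 4 ∧ -(I / 8) ≤ ∑ k ∈ D2, ψ k (w k)) := by
    rw [hind]
    nlinarith
  have hfin : Pr (fun k => zw (yv K Z g k)) (fun w => ¬ Det P K (zs K Z g w) B)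
      ≤ 1 - Pr (fun k => zw (yv K Z g k))
      (fun w => F1 w < I / 4 ∧ -(I / 8) ≤ ∑ k ∈ D2, ψ k (w k)) := by
    rw [← Pr_not hW]
    refine Pool.Agent.Helper50.BL.Pr_mono hW fun w hw => ?_
    rintro ⟨a1, a2⟩
    apply hw
    by_contra hnd
    have hz : ∀ k ∈ B, zs K Z g w k = 0 := by
      intro k hk
      by_contra hne
      exact hnd ⟨k, hk, Or.inl hne⟩
    have hv : ∀ k ∈ B, |ap P (fun k => Real.exp (K / 8) * (zs K Z g w k : ℝ)) k|
        ≤ Real.exp (-(K / 2)) := by
      intro k hk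
      by_contra hcon
      push Not at hcon
      exact hnd ⟨k, hk, Or.inr (mem_filter.2 ⟨mem_univ k, hcon.le⟩)⟩
    set x : ι → ℝ := fun k => Real.exp (K / 8) * (zs K Z g w k : ℝ) with hx
    have hup : ∑ k ∈ B, g k * ap P x k ≤ l1 g B * Real.exp (-(K / 2)) := by
      rw [l1, sum_mul]
      refine sum_le_sum fun k hk => ?_
      calc g k * ap P x k ≤ |g k * ap P x k| := le_abs_self _
        _ = |g k| * |ap P x k| := abs_mul _ _
        _ ≤ |g k| * Real.exp (-(K / 2)) := mul_le_mul_of_nonneg_left (hv k hk) (abs_nonneg _)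
    rw [pair hP B g x] at hup
    have hsplit : ∑ l, x l * ap P (rs B g) l = ∑ l ∈ D1, x l * wl l + ∑ l ∈ D2, x l * wl l := by
      rw [← sum_subset (subset_univ (Z \ B))]
      · rw [← sum_sdiff hD1Z, add_comm]
      · intro l _ hl'
        have hxl : x l = 0 := by
          simp only [hx]
          by_cases h1 : l ∈ Z
          · have h2 : l ∈ B := by
              by_contra h3
              exact hl' (mem_sdiff.2 ⟨h1, h3⟩)
            rw [hz l h2]; simp
          · rw [zs_off w h1]; simp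
        rw [hxl, zero_mul]
    rw [hsplit] at hup
    have hD1le : -(I / 4) ≤ ∑ l ∈ D1, x l * wl l := by
      have h1 : |∑ l ∈ D1, x l * wl l| ≤ F1 w := by
        refine (abs_sum_le_sum_abs _ _).trans (le_of_eq ?_)
        simp only [hF1, hx]
        refine sum_congr rfl fun l _ => ?_
        rw [abs_mul, abs_mul, abs_of_pos (Real.exp_pos _)]
      linarith [(abs_le.1 h1).1]
    have hD2e : ∑ l ∈ D2, x l * wl l = ∑ k ∈ D2, ψ k (w k) + ∑ l ∈ D2, g l * wl l := by
      rw [← sum_add_distrib]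
      refine sum_congr rfl fun l hl' => ?_
      have hlZ : l ∈ Z := (mem_sdiff.1 (mem_sdiff.1 hl').1).1
      simp only [hψ, hl', if_true, hx, zs]
      have h1 : Real.exp (K / 8) * yv K Z g l = g l := by
        rw [exp_yv]; simp [rs, hlZ]
      calc Real.exp (K / 8) * (zv (yv K Z g l) (w l) : ℝ) * wl l
          = Real.exp (K / 8) * wl l * ((zv (yv K Z g l) (w l) : ℝ) - yv K Z g l)
            + (Real.exp (K / 8) * yv K Z g l) * wl l := by ring
        _ = _ := by rw [h1]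
    have hD1g : ∑ l ∈ D1, g l * wl l ≤ I / 8 := by
      refine le_trans ?_ hn
      rw [near]
      refine sum_le_sum fun l _ => ?_
      calc g l * wl l ≤ |g l * wl l| := le_abs_self _
        _ = |g l| * |ap P (rs B g) l| := abs_mul _ _
    have hlow : I / 2 ≤ ∑ l ∈ D1, x l * wl l + ∑ l ∈ D2, x l * wl l := by
      rw [hD2e]
      linarith
    have h5 : l1 g B * Real.exp (-(K / 2)) < Real.exp (K / 8) * Real.exp (-(K / 2)) :=
      mul_lt_mul_of_pos_right hl (Real.exp_pos _)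
    have h6 : Real.exp (K / 8) * Real.exp (-(K / 2)) = Real.exp (-(3 * K / 8)) := by
      rw [← Real.exp_add]; congr 1; ring
    linarith
  linarith

/-- the number of visible points -/
theorem vis_card {P : ι → ι → ℝ} (K : ℝ) (Z : Finset ι) (g : ι → ℝ) (w : ι → Bool) :
    (#(vis P K (zs K Z g w)) : ℝ) ≤ #Z + Real.exp K * (2 * ∑ v,
      ap P (fun k => Real.exp (K / 8) * ((zv (yv K Z g k) (w k) : ℝ) - yv K Z g k)) v ^ 2
      + 2 * DD P g Z) := by
  set V1 : Finset ι := vis P K (zs K Z g w) with hV1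
  have h1 : (#V1 : ℝ) ≤ #Z + #(V1 \ Z) := by
    have : V1 ⊆ Z ∪ (V1 \ Z) := by
      intro v hv
      by_cases h : v ∈ Z
      · exact mem_union_left _ h
      · exact mem_union_right _ (mem_sdiff.2 ⟨hv, h⟩)
    have h2 := card_le_card this
    have h3 := card_union_le Z (V1 \ Z)
    exact_mod_cast h2.trans h3
  refine h1.trans ?_
  have h4 : (#(V1 \ Z) : ℝ) ≤ ∑ v ∈ V1 \ Z, Real.exp K * (2 *
      ap P (fun k => Real.exp (K / 8) * ((zv (yv K Z g k) (w k) : ℝ) - yv K Z g k)) v ^ 2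
      + 2 * (rs Z g v - ap P (rs Z g) v) ^ 2) := by
    rw [card_eq_sum_ones]
    push_cast
    refine sum_le_sum fun v hv => ?_
    have hv1 : v ∈ V1 := (mem_sdiff.1 hv).1
    have hv2 : v ∉ Z := (mem_sdiff.1 hv).2
    have h5 : Real.exp (-(K / 2)) ≤ |ap P (fun k => Real.exp (K / 8) * (zs K Z g w k : ℝ)) v| :=
      (mem_filter.1 hv1).2
    have h6 : ap P (fun k => Real.exp (K / 8) * (zs K Z g w k : ℝ)) v
        = ap P (fun k => Real.exp (K / 8) * ((zv (yv K Z g k) (w k) : ℝ) - yv K Z g k)) v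
          - (rs Z g v - ap P (rs Z g) v) := by
      have h7 : rs Z g v = 0 := by simp [rs, hv2]
      rw [h7, zero_sub, sub_neg_eq_add, ← ap_add]
      congr 1
      funext k
      rw [← exp_yv K Z g k, zs]
      ring
    set a := ap P (fun k => Real.exp (K / 8) * ((zv (yv K Z g k) (w k) : ℝ) - yv K Z g k)) v
    set b := rs Z g v - ap P (rs Z g) v
    rw [h6] at h5
    have h8 : Real.exp (-K) ≤ (a - b) ^ 2 := by
      have h9 : Real.exp (-K) = Real.exp (-(K / 2)) ^ 2 := by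
        rw [← Real.exp_nat_mul]; congr 1; push_cast; ring
      rw [h9, ← sq_abs (a - b)]
      exact pow_le_pow_left₀ (Real.exp_pos _).le h5 2
    have h10 : (a - b) ^ 2 ≤ 2 * a ^ 2 + 2 * b ^ 2 := by nlinarith [sq_nonneg (a + b)]
    have h11 : Real.exp K * Real.exp (-K) = 1 := by
      rw [← Real.exp_add]; simp
    calc (1 : ℝ) = Real.exp K * Real.exp (-K) := h11.symm
      _ ≤ Real.exp K * (2 * a ^ 2 + 2 * b ^ 2) :=
        mul_le_mul_of_nonneg_left (h8.trans h10) (Real.exp_pos _).le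
  have h12 : ∑ v ∈ V1 \ Z, Real.exp K * (2 *
      ap P (fun k => Real.exp (K / 8) * ((zv (yv K Z g k) (w k) : ℝ) - yv K Z g k)) v ^ 2
      + 2 * (rs Z g v - ap P (rs Z g) v) ^ 2)
      ≤ ∑ v, Real.exp K * (2 *
      ap P (fun k => Real.exp (K / 8) * ((zv (yv K Z g k) (w k) : ℝ) - yv K Z g k)) v ^ 2
      + 2 * (rs Z g v - ap P (rs Z g) v) ^ 2) :=
    sum_le_sum_of_subset_of_nonneg (subset_univ _) fun v _ _ => by positivity
  have h13 : ∑ v, Real.exp K * (2 *
      ap P (fun k => Real.exp (K / 8) * ((zv (yv K Z g k) (w k) : ℝ) - yv K Z g k)) v ^ 2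
      + 2 * (rs Z g v - ap P (rs Z g) v) ^ 2)
      = Real.exp K * (2 * ∑ v,
      ap P (fun k => Real.exp (K / 8) * ((zv (yv K Z g k) (w k) : ℝ) - yv K Z g k)) v ^ 2
      + 2 * DD P g Z) := by
    rw [← mul_sum, sum_add_distrib, ← mul_sum, ← mul_sum, DD]
  linarith

omit [Fintype ι] in
/-- the pieces have few points -/
theorem card_le_nu {Z : Finset ι} {g : ι → ℝ} {γ : ℝ} (hγ : 0 < γ) (hγ1 : γ ≤ 1)
    (hlow : ∀ i ∈ Z, γ ≤ |g i|) : γ * (#Z : ℝ) ≤ nu g Z := by
  rw [nu, card_eq_sum_ones]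
  push_cast
  rw [mul_sum]
  refine sum_le_sum fun i hi => ?_
  rw [mul_one]
  calc γ = γ ^ (1 : ℝ) := (Real.rpow_one γ).symm
    _ ≤ γ ^ (19 / 20 : ℝ) := Real.rpow_le_rpow_of_exponent_ge hγ hγ1 (by norm_num)
    _ ≤ |g i| ^ (19 / 20 : ℝ) := Real.rpow_le_rpow hγ.le (hlow i hi) (by norm_num)

theorem st_sample : ST_SAMPLE := by
  intro γ κ C hγ hγ1 hκ hκ1 hC
  set Λ : ℝ := 4000 * C / (κ * γ) with hΛ
  have hκγ : 0 < κ * γ := mul_pos hκ hγ
  have hκγ1 : κ * γ ≤ 1 := by nlinarith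
  have hΛ1 : 1 ≤ Λ := by
    rw [hΛ, le_div_iff₀ hκγ]; nlinarith
  refine ⟨1440 / 11 * Real.log Λ, ?_⟩
  intro K hK ι _ P Z g m hP hm hpc J F B hF
  have hK0 : 0 ≤ K := le_trans (by have := Real.log_nonneg hΛ1; positivity) hK
  have hE : Λ ≤ Real.exp (11 * K / 1440) := by
    rw [← Real.log_le_iff_le_exp (by linarith)]
    linarith
  have hm0 : 0 < m := by linarith
  have hbig : ∀ c : ℝ, 11 / 1440 ≤ c → Λ ≤ Real.exp (c * K) := by
    intro c hc
    refine hE.trans (Real.exp_le_exp.2 ?_)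
    nlinarith
  have hsmall : ∀ c : ℝ, 11 / 1440 ≤ c → Real.exp (-(c * K)) ≤ κ * γ / (4000 * C) := by
    intro c hc
    rw [Real.exp_neg]
    have h1 : (Real.exp (c * K))⁻¹ ≤ Λ⁻¹ := inv_anti₀ (by linarith) (hbig c hc)
    have h2 : Λ⁻¹ = κ * γ / (4000 * C) := by rw [hΛ, inv_div]
    rwa [h2] at h1
  have hq0 : κ * γ / (4000 * C) ≤ κ * γ / 4000 := by
    apply div_le_div_of_nonneg_left hκγ.le (by norm_num) (by linarith)
  have hW := isW_zw (yv K Z g)
  -- detection
  have hdet : ∀ j ∈ F, Pr (fun k => zw (yv K Z g k)) (fun w => ¬ Det P K (zs K Z g w) (B j))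
      ≤ 31 / 32 := by
    intro j hj
    obtain ⟨hjZ, h | ⟨h1, h2, h3⟩⟩ := hF j hj
    · exact detect_heavy P K Z (B j) g hjZ h
    · refine detect_slow hP K Z (B j) g (κ * γ) hκγ ?_ ?_ h1 h2 h3
      · have := hsmall (3 / 4) (by norm_num)
        have e : -(3 * K / 4) = -(3 / 4 * K) := by ring
        rw [e]
        linarith
      · have := hsmall (3 / 8) (by norm_num)
        have e : -(3 * K / 8) = -(3 / 8 * K) := by ring
        rw [e]
        linarith
  -- first expectation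
  have E1 : Ex (fun k => zw (yv K Z g k)) (fun w => lc (zs K Z g w))
      ≤ 1 / 2000 * (m * Real.exp (-(K / 9))) := by
    have h1 := round_lc Z (yv K Z g) (fun k hk => yv_off hk)
    have h2 : ∑ k ∈ Z, |yv K Z g k| ^ (19 / 20 : ℝ)
        = Real.exp (-(19 * K / 160)) * nu g Z := by
      rw [nu, mul_sum]
      refine sum_congr rfl fun k hk => ?_
      rw [yv_on hk, abs_mul, abs_of_pos (Real.exp_pos _),
        Real.mul_rpow (Real.exp_pos _).le (abs_nonneg _), ← Real.exp_mul]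
      congr 2
      ring
    have h3 : Real.exp (-(19 * K / 160)) = Real.exp (-(11 / 1440 * K)) * Real.exp (-(K / 9)) := by
      rw [← Real.exp_add]; congr 1; ring
    have h4 := hsmall (11 / 1440) le_rfl
    have h5 : Real.exp (-(19 * K / 160)) * nu g Z
        ≤ (κ * γ / (4000 * C) * Real.exp (-(K / 9))) * (C * m) := by
      rw [h3]
      refine mul_le_mul (mul_le_mul_of_nonneg_right h4 (Real.exp_pos _).le) hpc.nub ?_
        (by positivity)
      exact sum_nonneg fun _ _ => by positivity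
    have h6 : (κ * γ / (4000 * C) * Real.exp (-(K / 9))) * (C * m)
        = (κ * γ) * (1 / 4000 * (m * Real.exp (-(K / 9)))) := by
      field_simp
    have h7 : (κ * γ) * (1 / 4000 * (m * Real.exp (-(K / 9))))
        ≤ 1 / 4000 * (m * Real.exp (-(K / 9))) := by
      have : 0 ≤ 1 / 4000 * (m * Real.exp (-(K / 9))) := by positivity
      nlinarith
    rw [h2] at h1
    have h8 : Ex (fun k => zw (yv K Z g k)) (fun w => lc (zs K Z g w))
        ≤ 2 * (Real.exp (-(19 * K / 160)) * nu g Z) := h1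
    linarith
  -- second expectation
  have hcard : (#Z : ℝ) ≤ C / γ * m := by
    have h1 := card_le_nu hγ hγ1 hpc.low
    have h2 := hpc.nub
    rw [div_mul_eq_mul_div, le_div_iff₀ hγ]
    linarith
  have E2 : Ex (fun k => zw (yv K Z g k)) (fun w => (#(vis P K (zs K Z g w)) : ℝ))
      ≤ 1 / 1000 * (m * Real.exp (3 * K / 2)) := by
    have h1 : Ex (fun k => zw (yv K Z g k)) (fun w => (#(vis P K (zs K Z g w)) : ℝ))
        ≤ Ex (fun k => zw (yv K Z g k)) (fun w => ((#Z : ℝ) + Real.exp K * (2 * DD P g Z))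
          + (Real.exp K * 2) * ∑ v, ap P (fun k => Real.exp (K / 8)
            * ((zv (yv K Z g k) (w k) : ℝ) - yv K Z g k)) v ^ 2) := by
      refine Pool.Agent.Helper50.BL.Ex_mono hW fun w => ?_
      refine (vis_card K Z g w).trans (le_of_eq ?_)
      ring
    rw [Pool.Agent.Helper50.BL.Ex_add, Pool.Agent.Helper50.BL.Ex_const hW,
      Pool.Agent.Helper50.BL.Ex_mul_left] at h1
    have h2 := round_var hP Z (yv K Z g) (fun k hk => yv_off hk) (Real.exp (K / 8))
    have h3 : ∑ k ∈ Z, P k k ≤ #Z := by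
      rw [card_eq_sum_ones]
      push_cast
      exact sum_le_sum fun k _ => diag_le hP k
    have h4 : Real.exp (K / 8) ^ 2 = Real.exp (K / 4) := by
      rw [← Real.exp_nat_mul]; congr 1; push_cast; ring
    rw [h4] at h2
    have h5 : Ex (fun k => zw (yv K Z g k)) (fun w => ∑ v, ap P (fun k => Real.exp (K / 8)
            * ((zv (yv K Z g k) (w k) : ℝ) - yv K Z g k)) v ^ 2)
        ≤ Real.exp (K / 4) / 4 * (C / γ * m) :=
      h2.trans (mul_le_mul_of_nonneg_left (h3.trans hcard) (by positivity))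
    have h6 : Real.exp K * (2 * DD P g Z) ≤ Real.exp K * (2 * m) :=
      mul_le_mul_of_nonneg_left (by linarith [hpc.dfb]) (Real.exp_pos _).le
    have h7 : (Real.exp K * 2) * Ex (fun k => zw (yv K Z g k)) (fun w => ∑ v,
          ap P (fun k => Real.exp (K / 8) * ((zv (yv K Z g k) (w k) : ℝ) - yv K Z g k)) v ^ 2)
        ≤ (Real.exp K * 2) * (Real.exp (K / 4) / 4 * (C / γ * m)) :=
      mul_le_mul_of_nonneg_left h5 (by positivity)
    have h8 : Real.exp K * Real.exp (K / 4) = Real.exp (5 * K / 4) := by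
      rw [← Real.exp_add]; congr 1; ring
    have h9 : (Real.exp K * 2) * (Real.exp (K / 4) / 4 * (C / γ * m))
        = 1 / 2 * Real.exp (5 * K / 4) * (C / γ * m) := by
      rw [← h8]; ring
    have h10 : Real.exp K ≤ Real.exp (5 * K / 4) := Real.exp_le_exp.2 (by linarith)
    have h11 : 1 ≤ Real.exp (5 * K / 4) := Real.one_le_exp (by positivity)
    have h12 : 1 ≤ C / γ := by rw [le_div_iff₀ hγ]; linarith
    have h13 : m ≤ C / γ * m := by nlinarith
    have h14 : (#Z : ℝ) ≤ Real.exp (5 * K / 4) * (C / γ * m) := by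
      have : 0 ≤ C / γ * m := by positivity
      nlinarith
    have h15 : Real.exp K * (2 * m) ≤ 2 * (Real.exp (5 * K / 4) * (C / γ * m)) := by
      have : Real.exp K * m ≤ Real.exp (5 * K / 4) * (C / γ * m) :=
        mul_le_mul h10 h13 hm0.le (Real.exp_pos _).le
      linarith
    have h16 : Ex (fun k => zw (yv K Z g k)) (fun w => (#(vis P K (zs K Z g w)) : ℝ))
        ≤ 4 * (Real.exp (5 * K / 4) * (C / γ * m)) := by
      have : 0 ≤ Real.exp (5 * K / 4) * (C / γ * m) := by positivity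
      linarith
    have h17 : Real.exp (5 * K / 4) = Real.exp (3 * K / 2) * Real.exp (-(1 / 4 * K)) := by
      rw [← Real.exp_add]; congr 1; ring
    have h18 := hsmall (1 / 4) (by norm_num)
    have h19 : Real.exp (5 * K / 4) * (C / γ * m)
        ≤ (Real.exp (3 * K / 2) * (κ * γ / (4000 * C))) * (C / γ * m) := by
      rw [h17]
      exact mul_le_mul_of_nonneg_right (mul_le_mul_of_nonneg_left h18 (Real.exp_pos _).le)
        (by positivity)
    have h20 : (Real.exp (3 * K / 2) * (κ * γ / (4000 * C))) * (C / γ * m)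
        = κ * (1 / 4000 * (m * Real.exp (3 * K / 2))) := by
      field_simp
    have h21 : κ * (1 / 4000 * (m * Real.exp (3 * K / 2)))
        ≤ 1 / 4000 * (m * Real.exp (3 * K / 2)) := by
      have : 0 ≤ 1 / 4000 * (m * Real.exp (3 * K / 2)) := by positivity
      nlinarith
    linarith
  -- third expectation
  have E3 : Ex (fun k => zw (yv K Z g k))
      (fun w => (#(F.filter (fun j => ¬ Det P K (zs K Z g w) (B j))) : ℝ)) ≤ 31 / 32 * #F := by
    have e : (fun w : ι → Bool => (#(F.filter (fun j => ¬ Det P K (zs K Z g w) (B j))) : ℝ))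
        = fun w => ∑ j ∈ F, (if ¬ Det P K (zs K Z g w) (B j) then (1 : ℝ) else 0) := by
      funext w
      rw [card_filter]
      push_cast
      rfl
    rw [e, Pool.Agent.Helper50.BL.Ex_sum, mul_comm, ← nsmul_eq_mul]
    refine sum_le_card_nsmul _ _ _ fun j hj => ?_
    refine le_trans (le_of_eq ?_) (hdet j hj)
    rw [Pr_eq]
    congr 1
    funext w
    by_cases hd : Det P K (zs K Z g w) (B j)
    · rw [if_neg (not_not.2 hd), if_neg (not_not.2 hd)]
    · rw [if_pos hd, if_pos hd]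
  -- the combination
  set A1 : ℝ := m * Real.exp (-(K / 9)) with hA1
  set A2 : ℝ := m * Real.exp (3 * K / 2) with hA2
  set A3 : ℝ := 63 / 64 * (#F : ℝ) with hA3
  have hA1p : 0 < A1 := by positivity
  have hA2p : 0 < A2 := by positivity
  have hA3n : 0 ≤ A3 := by positivity
  obtain ⟨w, hw⟩ := Pool.Agent.Helper50.BL.exists_le_Ex hW (fun w => A1⁻¹ * lc (zs K Z g w)
    + (A2⁻¹ * (#(vis P K (zs K Z g w)) : ℝ)
    + A3⁻¹ * (#(F.filter (fun j => ¬ Det P K (zs K Z g w) (B j))) : ℝ)))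
  rw [Pool.Agent.Helper50.BL.Ex_add, Pool.Agent.Helper50.BL.Ex_add,
    Pool.Agent.Helper50.BL.Ex_mul_left, Pool.Agent.Helper50.BL.Ex_mul_left,
    Pool.Agent.Helper50.BL.Ex_mul_left] at hw
  have b1 : A1⁻¹ * Ex (fun k => zw (yv K Z g k)) (fun w => lc (zs K Z g w)) ≤ 1 / 2000 := by
    rw [inv_mul_le_iff₀ hA1p]; linarith
  have b2 : A2⁻¹ * Ex (fun k => zw (yv K Z g k)) (fun w => (#(vis P K (zs K Z g w)) : ℝ))
      ≤ 1 / 1000 := by
    rw [inv_mul_le_iff₀ hA2p]; linarith
  have b3 : A3⁻¹ * Ex (fun k => zw (yv K Z g k))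
      (fun w => (#(F.filter (fun j => ¬ Det P K (zs K Z g w) (B j))) : ℝ)) ≤ 62 / 63 := by
    rcases hA3n.eq_or_lt with h | h
    · rw [← h]; norm_num
    · rw [inv_mul_le_iff₀ h]
      have : A3 * (62 / 63) = 31 / 32 * #F := by rw [hA3]; ring
      rw [this]; exact E3
  have c0 : 0 ≤ lc (zs K Z g w) := sum_nonneg fun k _ =>
    Real.log_nonneg (by linarith [abs_nonneg (zs K Z g w k : ℝ)])
  have t1 : 0 ≤ A1⁻¹ * lc (zs K Z g w) := mul_nonneg (inv_nonneg.2 hA1p.le) c0
  have t2 : 0 ≤ A2⁻¹ * (#(vis P K (zs K Z g w)) : ℝ) := by positivity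
  have t3 : 0 ≤ A3⁻¹ * (#(F.filter (fun j => ¬ Det P K (zs K Z g w) (B j))) : ℝ) := by
    positivity
  have htot : A1⁻¹ * lc (zs K Z g w) + (A2⁻¹ * (#(vis P K (zs K Z g w)) : ℝ)
      + A3⁻¹ * (#(F.filter (fun j => ¬ Det P K (zs K Z g w) (B j))) : ℝ)) ≤ 1 := by
    linarith
  refine ⟨zs K Z g w, fun k hk => zs_off w hk, ?_, ?_, ?_⟩
  · have h1 : A1⁻¹ * lc (zs K Z g w) ≤ 1 := by linarith
    rw [inv_mul_le_iff₀ hA1p, mul_one] at h1
    exact h1
  · have h1 : A2⁻¹ * (#(vis P K (zs K Z g w)) : ℝ) ≤ 1 := by linarith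
    rw [inv_mul_le_iff₀ hA2p, mul_one] at h1
    exact h1
  · rcases hA3n.eq_or_lt with h | h
    · have hF0 : (#F : ℝ) = 0 := by
        rw [hA3] at h; linarith
      have hle : (#(F.filter (fun j => ¬ Det P K (zs K Z g w) (B j))) : ℝ) ≤ #F := by
        exact_mod_cast card_filter_le _ _
      rw [← h]
      linarith
    · have h1 : A3⁻¹ * (#(F.filter (fun j => ¬ Det P K (zs K Z g w) (B j))) : ℝ) ≤ 1 := by
        linarith
      rw [inv_mul_le_iff₀ h, mul_one] at h1
      exact h1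

end

end Pool.Agent.Helper37.ZS
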